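import Pool.Agent.P.MP_cf7e4d_co.Main

/-! Asymptotic form of the conjecture: the fractional list packing number of a `d`-degenerate
graph is at most `d + d ^ α` for every `α > 7 / 8` and large `d`. -/

namespace Pool.Agent.Results.MP_cf7e4d_co.Asymptotic

open Finset Pool.Agent.P.MP_cf7e4d_co

/-- Every nonempty subgraph has a vertex of degree at most `d`. -/
def IsDegenerate {V : Type} (G : SimpleGraph V) (d : ℕ) : Prop :=
  ∀ H : G.Subgraph, H.verts.Nonempty → ∃ v ∈ H.verts, (H.neighborSet v).ncard ≤ d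

/-- A proper colouring choosing each colour from the list of the vertex. -/
def IsListColouring {V C : Type} (G : SimpleGraph V) (L : V → Finset C) (c : V → C) : Prop :=
  (∀ v, c v ∈ L v) ∧ ∀ u v, G.Adj u v → c u ≠ c v

/-- A probability distribution on `L`-colourings in which every vertex gets every colour of its
list with probability `1 / k`. -/
def HasFractionalPacking {V C : Type} (G : SimpleGraph V) (L : V → Finset C) (k : ℕ) : Prop :=
  ∃ μ : PMF (V → C), (∀ c ∈ μ.support, IsListColouring G L c) ∧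
    ∀ v, ∀ x ∈ L v, μ.toOuterMeasure {c | c v = x} = 1 / (k : ENNReal)

theorem result : ∀ α : ℝ, 7 / 8 < α → ∃ d₀ : ℕ, ∀ d : ℕ, d₀ ≤ d → ∀ k : ℕ,
    (d : ℝ) + (d : ℝ) ^ α ≤ k →
    ∀ (V C : Type) [Finite V] (G : SimpleGraph V), IsDegenerate G d →
      ∀ L : V → Finset C, (∀ v, (L v).card = k) → HasFractionalPacking G L k := by
  intro α hα
  obtain ⟨d₀, h⟩ := weighted hα
  refine ⟨d₀, fun d hd k hk V C _ G hG L hL => ?_⟩
  classical
  cases nonempty_fintype V
  obtain ⟨hk0, h⟩ := h d hd k hk
  obtain ⟨w, hw0, hw1, hw⟩ := h V C G hG L hL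
  set S := (Fintype.piFinset L).filter (fun c => ∀ u v, G.Adj u v → c u ≠ c v) with hS
  refine ⟨PMF.ofFinset (fun c => if c ∈ S then ENNReal.ofReal (w c) else 0) S ?_ ?_, ?_, ?_⟩
  · rw [sum_congr rfl (fun c hc => if_pos hc), ← ENNReal.ofReal_sum_of_nonneg (fun c _ => hw0 c),
      hw1, ENNReal.ofReal_one]
  · exact fun c hc => if_neg hc
  · intro c hc
    have hcS : c ∈ S := ((PMF.mem_support_ofFinset_iff _ _ _).1 hc).1
    rw [hS, mem_filter, Fintype.mem_piFinset] at hcS
    exact hcS
  · intro v x hx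
    rw [PMF.toOuterMeasure_ofFinset_apply, tsum_eq_sum (s := S)]
    · have : ∀ c ∈ S, Set.indicator {c : V → C | c v = x}
          (fun c => if c ∈ S then ENNReal.ofReal (w c) else 0) c =
          ENNReal.ofReal (w c * ind (c v = x)) := by
        intro c hc
        by_cases hcx : c v = x
        · rw [Set.indicator_of_mem (by exact hcx), if_pos hc, ind_pos hcx, mul_one]
        · rw [Set.indicator_of_notMem (by exact hcx), ind_neg hcx, mul_zero, ENNReal.ofReal_zero]
      rw [sum_congr rfl this,
        ← ENNReal.ofReal_sum_of_nonneg (fun c _ => mul_nonneg (hw0 c) (ind_nonneg _)), hw v x hx,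
        ENNReal.ofReal_div_of_pos (by exact_mod_cast hk0), ENNReal.ofReal_one,
        ENNReal.ofReal_natCast]
    · intro c hc
      by_cases hcx : c v = x
      · rw [Set.indicator_of_mem (by exact hcx), if_neg hc]
      · rw [Set.indicator_of_notMem (by exact hcx)]

end Pool.Agent.Results.MP_cf7e4d_co.Asymptotic
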